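import Mathlib

set_option autoImplicit false

namespace Pool.Agent.Lib.MP_ad4d1c_co_h51

open Finset

/-- Between `A` and `U` there are `|U| - |A|` distinct sets strictly above `A`. -/
theorem exists_between {α : Type*} [DecidableEq α] {A U : Finset α} (h : A ⊆ U) :
    ∃ C : Finset (Finset α), C.card = U.card - A.card ∧ ∀ X ∈ C, A ⊂ X ∧ X ⊆ U := by
  classical
  have key : ∀ t ∈ Finset.Icc 1 (U.card - A.card),
      ∃ X : Finset α, A ⊆ X ∧ X ⊆ U ∧ X.card = A.card + t := by
    intro t ht
    rw [Finset.mem_Icc] at ht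
    exact Finset.exists_subsuperset_card_eq h (Nat.le_add_right _ _) (by omega)
  choose! f hf using key
  refine ⟨(Finset.Icc 1 (U.card - A.card)).image f, ?_, ?_⟩
  · rw [Finset.card_image_of_injOn, Nat.card_Icc]
    · omega
    · intro a ha b hb hab
      have h1 := (hf a (by simpa using ha)).2.2
      have h2 := (hf b (by simpa using hb)).2.2
      rw [hab] at h1
      omega
  · intro X hX
    obtain ⟨t, ht, rfl⟩ := Finset.mem_image.1 hX
    obtain ⟨h1, h2, h3⟩ := hf t ht
    refine ⟨(Finset.ssubset_iff_subset_ne).2 ⟨h1, ?_⟩, h2⟩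
    intro he
    rw [← he] at h3
    rw [Finset.mem_Icc] at ht
    omega

/-- The upper bound of Felsner and Trotter. -/
theorem ft_upper (n : ℕ) (hn : 1 ≤ n) (s : ℕ) (B : Fin s → Finset (Fin n))
    (hinj : Function.Injective B)
    (h1 : ∀ i j : Fin s, j.val = i.val + 1 → ¬ (B j ⊆ B i))
    (h2 : ∀ i k j : Fin s, k.val = i.val + 1 → i.val + 2 ≤ j.val → ¬ (B j ⊆ B i ∪ B k)) :
    s ≤ 2 ^ (n - 1) + (n + 1) / 2 := by
  classical
  obtain _ | r := s
  · exact Nat.zero_le _
  have hex : ∀ i : Fin r, ∃ C : Finset (Finset (Fin n)),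
      C.card = (B i.castSucc ∪ B i.succ).card - (B i.succ).card ∧
        ∀ X ∈ C, B i.succ ⊂ X ∧ X ⊆ B i.castSucc ∪ B i.succ :=
    fun i => exists_between Finset.subset_union_right
  choose C hC1 hC2 using hex
  -- pairwise disjoint
  have hlt : ∀ i j : Fin r, i < j → Disjoint (C i) (C j) := by
    intro i j hij
    rw [Finset.disjoint_left]
    intro X hXi hXj
    have ha := (hC2 i X hXi).2
    have hb := (hC2 j X hXj).1.1
    refine h2 i.castSucc i.succ j.succ (by simp) ?_ (fun x hx => ha (hb hx))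
    have : i.val < j.val := hij
    simp
    omega
  have hdisj : ∀ i ∈ (Finset.univ : Finset (Fin r)), ∀ j ∈ (Finset.univ : Finset (Fin r)),
      i ≠ j → Disjoint (C i) (C j) := by
    intro i _ j _ hij
    rcases lt_or_gt_of_ne hij with h | h
    · exact hlt i j h
    · exact (hlt j i h).symm
  have hdB : Disjoint (Finset.univ.image B) (Finset.univ.biUnion C) := by
    rw [Finset.disjoint_left]
    intro X hX hX'
    obtain ⟨j, -, rfl⟩ := Finset.mem_image.1 hX
    obtain ⟨i, -, hi⟩ := Finset.mem_biUnion.1 hX'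
    obtain ⟨ha, hb⟩ := hC2 i _ hi
    rcases lt_trichotomy j.val (i.val + 1) with h | h | h
    · rcases Nat.lt_or_ge j.val i.val with h' | h'
      · -- j < i
        have hj : j.val < r := lt_trans h' i.isLt
        refine h2 (Fin.castSucc ⟨j.val, hj⟩) (Fin.succ ⟨j.val, hj⟩) i.succ (by simp)
          (by simp; omega) ?_
        have he : Fin.castSucc (⟨j.val, hj⟩ : Fin r) = j := Fin.ext (by simp)
        rw [he]
        exact ha.1.trans Finset.subset_union_left
      · -- j = i
        have he : j = i.castSucc := Fin.ext (by simp; omega)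
        subst he
        exact h1 i.castSucc i.succ (by simp) ha.1
    · have he : j = i.succ := Fin.ext (by simp; omega)
      subst he
      exact ha.ne rfl
    · exact h2 i.castSucc i.succ j (by simp) (by simp; omega) hb
  have hcard : (Finset.univ.image B ∪ Finset.univ.biUnion C).card ≤ 2 ^ n := by
    have := Finset.card_le_univ (Finset.univ.image B ∪ Finset.univ.biUnion C)
    simpa using this
  rw [Finset.card_union_of_disjoint hdB, Finset.card_biUnion hdisj,
    Finset.card_image_of_injective _ hinj, Finset.card_univ, Fintype.card_fin] at hcard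
  -- the sum
  have hu : ∀ i : Fin r, ((B i.castSucc).card : ℤ) + 1 - (B i.succ).card ≤ ((C i).card : ℤ) := by
    intro i
    rw [hC1 i]
    have h3 : (B i.castSucc).card < (B i.castSucc ∪ B i.succ).card := by
      apply Finset.card_lt_card
      refine ⟨Finset.subset_union_left, fun hh => h1 i.castSucc i.succ (by simp) ?_⟩
      exact Finset.subset_union_right.trans hh
    omega
  have hsum : ∑ i : Fin r, (((B i.castSucc).card : ℤ) + 1 - (B i.succ).card) ≤
      ∑ i : Fin r, ((C i).card : ℤ) := Finset.sum_le_sum fun i _ => hu i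
  have htel : ∑ i : Fin r, ((B i.castSucc).card : ℤ) + ((B (Fin.last r)).card : ℤ) =
      ((B 0).card : ℤ) + ∑ i : Fin r, ((B i.succ).card : ℤ) := by
    rw [← Fin.sum_univ_castSucc (fun i => ((B i).card : ℤ)),
      Fin.sum_univ_succ (fun i => ((B i).card : ℤ))]
  rw [Finset.sum_sub_distrib, Finset.sum_add_distrib] at hsum
  simp only [Finset.sum_const, Finset.card_univ, Fintype.card_fin, nsmul_eq_mul, mul_one] at hsum
  have hlast : (B (Fin.last r)).card ≤ n := by
    simpa using Finset.card_le_univ (B (Fin.last r))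
  have hcard' : ((r : ℤ) + 1) + ∑ i : Fin r, ((C i).card : ℤ) ≤ (2 : ℤ) ^ n := by
    exact_mod_cast hcard
  have hpow : (2 : ℤ) ^ n = 2 * 2 ^ (n - 1) := by
    obtain ⟨m, rfl⟩ : ∃ m, n = m + 1 := ⟨n - 1, by omega⟩
    simp [pow_succ, mul_comm]
  have hfin : 2 * ((r : ℤ) + 1) ≤ 2 * 2 ^ (n - 1) + n + 1 := by
    have h0 : (0 : ℤ) ≤ ((B 0).card : ℤ) := by positivity
    have h5 : ((B (Fin.last r)).card : ℤ) ≤ n := by exact_mod_cast hlast
    rw [hpow] at hcard'
    linarith
  have hfin' : 2 * (r + 1) ≤ 2 * 2 ^ (n - 1) + n + 1 := by exact_mod_cast hfin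
  omega

end Pool.Agent.Lib.MP_ad4d1c_co_h51
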