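import Pool.Agent.Lib.MP_ad4d1c_co_h48.Family
import Pool.Agent.Lib.MP_ad4d1c_co_h51.Upper

set_option autoImplicit false

namespace Pool.Agent.Lib.MP_ad4d1c_co_h51

open Finset Pool.Agent.Lib.MP_ad4d1c_co_h48

/-- A full admissible sequence of subsets of `{0, ..., n-1}`, given with the peaks. -/
def Good (n : ℕ) : Prop :=
  ∃ L : List (Finset ℕ × Finset ℕ), Adm L ∧ L.length = 2 ^ (n - 1) + (n + 1) / 2 ∧
    (∀ p ∈ L, p.1 ⊆ Finset.range n) ∧ L.head? = some (∅, ∅)

/-- The elements of `Fin n` whose value is in `X`. -/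
def tr (n : ℕ) (X : Finset ℕ) : Finset (Fin n) := Finset.univ.filter (fun x => x.val ∈ X)

theorem mem_tr {n : ℕ} {X : Finset ℕ} {x : Fin n} : x ∈ tr n X ↔ x.val ∈ X := by simp [tr]

theorem subset_of_tr {n : ℕ} {X Y : Finset ℕ} (hX : X ⊆ Finset.range n) (h : tr n X ⊆ tr n Y) :
    X ⊆ Y := by
  intro x hx
  have hx' : x < n := Finset.mem_range.1 (hX hx)
  have := h (mem_tr.2 (show (⟨x, hx'⟩ : Fin n).val ∈ X from hx))
  exact mem_tr.1 this

theorem tr_mono {n : ℕ} {X Y : Finset ℕ} (h : X ⊆ Y) : tr n X ⊆ tr n Y :=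
  fun _ hx => mem_tr.2 (h (mem_tr.1 hx))

theorem good_mem (n : ℕ) (h : Good n) :
    (2 ^ (n - 1) + (n + 1) / 2) ∈
      {s : ℕ | ∃ B : Fin s → Finset (Fin n),
          Function.Injective B ∧
          (∀ i : Fin s, i.val = 0 → B i = ∅) ∧
          (∀ i j : Fin s, j.val = i.val + 1 → ¬ (B j ⊆ B i)) ∧
          (∀ i k j : Fin s, k.val = i.val + 1 → i.val + 2 ≤ j.val →
            ¬ (B j ⊆ B i ∪ B k))} := by
  obtain ⟨L, hA, hlen, hr, hhead⟩ := h
  have hpw : ∀ i j : ℕ, ∀ (hi : i < L.length) (hj : j < L.length), i < j →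
      ¬ (L[j].2 ⊆ L[i].1) := by
    intro i j hi hj hij
    exact List.pairwise_iff_getElem.1 hA.pw i j hi hj hij
  have hch : ∀ i : ℕ, ∀ (hi : i + 1 < L.length), L[i].2 ⊆ L[i + 1].1 := by
    intro i hi
    exact List.isChain_iff_getElem.1 hA.chain i hi
  have hsub : ∀ i : ℕ, ∀ (hi : i < L.length), L[i].2 ⊆ L[i].1 := fun i hi =>
    hA.sub _ (List.getElem_mem hi)
  have hran : ∀ i : ℕ, ∀ (hi : i < L.length), L[i].2 ⊆ Finset.range n := fun i hi =>
    (hsub i hi).trans (hr _ (List.getElem_mem hi))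
  have hlt : ∀ i : Fin (2 ^ (n - 1) + (n + 1) / 2), i.val < L.length := fun i => by
    rw [hlen]
    exact i.isLt
  have hno : ∀ i j : Fin (2 ^ (n - 1) + (n + 1) / 2), i.val < j.val →
      ¬ (tr n (L[j.val]'(hlt j)).2 ⊆ tr n (L[i.val]'(hlt i)).1) := by
    intro i j hij hh
    exact hpw i.val j.val (hlt i) (hlt j) hij (subset_of_tr (hran _ _) hh)
  refine ⟨fun i => tr n (L[i.val]'(hlt i)).2, ?_, ?_, ?_, ?_⟩
  · intro i j hij
    simp only at hij
    by_contra hne
    rcases lt_or_gt_of_ne (fun h => hne (Fin.ext h)) with h | h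
    · exact hno i j h (by rw [← hij]; exact tr_mono (hsub _ _))
    · exact hno j i h (by rw [hij]; exact tr_mono (hsub _ _))
  · intro i hi
    have h0 : (L[i.val]'(hlt i)) = (∅, ∅) := by
      have h1 : L[i.val]? = some (∅, ∅) := by
        rw [hi, ← List.head?_eq_getElem?]
        exact hhead
      rw [List.getElem?_eq_getElem (hlt i)] at h1
      exact Option.some.inj h1
    simp only [h0]
    simp [tr]
  · intro i j hj hh
    exact hno i j (by omega) (hh.trans (tr_mono (hsub _ _)))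
  · intro i k j hk hj hh
    refine hno k j (by omega) (hh.trans (Finset.union_subset ?_ (tr_mono (hsub _ _))))
    have h2 := hch i.val (by have := hlt k; omega)
    apply tr_mono
    have h3 : (L[k.val]'(hlt k)) = L[i.val + 1]'(by have := hlt k; omega) := by
      congr 1
    rw [h3]
    exact h2

/-- From good sequences for every `n` to the frozen statement. -/
theorem final (h : ∀ n : ℕ, 1 ≤ n → Good n) :
    ∀ n : ℕ, 1 ≤ n →
      IsGreatest
        {s : ℕ | ∃ B : Fin s → Finset (Fin n),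
          Function.Injective B ∧
          (∀ i : Fin s, i.val = 0 → B i = ∅) ∧
          (∀ i j : Fin s, j.val = i.val + 1 → ¬ (B j ⊆ B i)) ∧
          (∀ i k j : Fin s, k.val = i.val + 1 → i.val + 2 ≤ j.val →
            ¬ (B j ⊆ B i ∪ B k))}
        (2 ^ (n - 1) + (n + 1) / 2) := by
  intro n hn
  refine ⟨good_mem n (h n hn), ?_⟩
  rintro s ⟨B, hinj, -, h1, h2⟩
  exact ft_upper n hn s B hinj h1 h2

end Pool.Agent.Lib.MP_ad4d1c_co_h51
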