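import Mathlib
import Pool.Agent.Lib.MP_ad4d1c_co_h38.Check
import Pool.Agent.Lib.MP_ad4d1c_co_h48.ExDefs
import Pool.Agent.Lib.MP_ad4d1c_co_h51.ExTab

set_option autoImplicit false

/-! Checker for plain families on seven elements and its soundness. -/

namespace Pool.Agent.Lib.MP_ad4d1c_co_h51.U

open Finset Pool.Agent.Lib.MP_ad4d1c_co_h38 Pool.Agent.Lib.MP_ad4d1c_co_h48.Ex

/-- the start order -/
def base : List ℕ := [0, 1, 2, 3, 4, 5, 6]

def dec : ℕ → ℕ → List (ℕ × ℕ)
  | 0, _ => []
  | k + 1, n => force (n % 128) fun U => force (n / 128 % 128) fun B =>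
      force (n / 16384) fun n' => (U, B) :: dec k n'

theorem length_dec : ∀ k n, (dec k n).length = k := by
  intro k
  induction k with
  | zero => intro n; rfl
  | succ k ih =>
    intro n
    rw [dec]
    simp only [force_eq, List.length_cons, ih]

def offs : List ℕ := [0, 1, 7, 22, 42, 57, 63]

/-- level `l` of the family with code `N` -/
def lv (N l : ℕ) : List (ℕ × ℕ) := dec (Nat.choose 6 l) (N / 2 ^ (14 * offs.getD l 0))

def fam (N : ℕ) : Fam := fun l => (lv N l).map toPair

/-- mask of a list -/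
def msk : List ℕ → ℕ
  | [] => 0
  | x :: t => 2 ^ x ||| msk t

theorem toSet_msk (a : List ℕ) : toSet (msk a) = a.toFinset := by
  induction a with
  | nil => simp [msk, toSet_zero]
  | cons x t ih =>
    ext j
    rw [List.toFinset_cons, mem_insert, ← ih, mem_toSet, mem_toSet, msk, Nat.testBit_or,
      Nat.testBit_two_pow, Bool.or_eq_true, decide_eq_true_eq]
    constructor
    · rintro (h | h)
      · exact Or.inl h.symm
      · exact Or.inr h
    · rintro (h | h)
      · exact Or.inl h.symm
      · exact Or.inr h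

def pwOk : List (ℕ × ℕ) → Bool
  | [] => true
  | p :: t => (t.all fun q => !(Nat.beq (q.2 &&& p.1) q.2)) && pwOk t

theorem land_of_toSet_subset {a b : ℕ} (h : toSet a ⊆ toSet b) : a &&& b = a := by
  apply Nat.eq_of_testBit_eq
  intro i
  rw [Nat.testBit_and]
  by_cases ha : a.testBit i = true
  · have := h (mem_toSet.2 ha)
    rw [mem_toSet] at this
    simp [ha, this]
  · simp [ha]

theorem pw_of_pwOk : ∀ X : List (ℕ × ℕ), pwOk X = true →
    (X.map toPair).Pairwise (fun p q => ¬ q.2 ⊆ p.1) := by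
  intro X
  induction X with
  | nil => intro _; simp
  | cons p t ih =>
    intro h
    rw [pwOk, Bool.and_eq_true, List.all_eq_true] at h
    rw [List.map_cons, List.pairwise_cons]
    refine ⟨?_, ih h.2⟩
    intro q hq hsub
    obtain ⟨q', hq', rfl⟩ := List.mem_map.1 hq
    have h1 := h.1 q' hq'
    have h2 : q'.2 &&& p.1 = q'.2 := land_of_toSet_subset hsub
    rw [h2] at h1
    simp at h1

def hdOk (p : ℕ × ℕ) : List (ℕ × ℕ) → Bool
  | [] => true
  | q :: _ => Nat.beq (p.2 &&& q.1) p.2

def chOk : List (ℕ × ℕ) → Bool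
  | [] => true
  | p :: t => hdOk p t && chOk t

theorem ch_of_chOk : ∀ X : List (ℕ × ℕ), chOk X = true →
    (X.map toPair).IsChain (fun p q => p.2 ⊆ q.1) := by
  intro X
  induction X with
  | nil => intro _; simp
  | cons p t ih =>
    intro h
    rw [chOk, Bool.and_eq_true] at h
    rw [List.map_cons, List.isChain_cons]
    refine ⟨?_, ih h.2⟩
    intro q hq
    rcases t with _ | ⟨q', t⟩
    · simp at hq
    · simp only [List.map_cons, List.head?_cons, Option.mem_def, Option.some.injEq] at hq
      subst hq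
      exact toSet_subset_of_land (Nat.eq_of_beq_eq_true h.1)

/-- bitset of the masks `f p` -/
def bs (f : ℕ × ℕ → ℕ) : List (ℕ × ℕ) → ℕ
  | [] => 0
  | p :: t => 2 ^ f p ||| bs f t

theorem testBit_bs (f : ℕ × ℕ → ℕ) (X : List (ℕ × ℕ)) (p : ℕ × ℕ) (hp : p ∈ X) :
    (bs f X).testBit (f p) = true := by
  induction X with
  | nil => simp at hp
  | cons q t ih =>
    rw [bs, Nat.testBit_or, Bool.or_eq_true]
    rcases List.mem_cons.1 hp with rfl | h
    · left; simp
    · right; exact ih h

def lvOk (N l : ℕ) (a : List ℕ) : Bool :=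
  ((lv N l).all fun p => Nat.beq (p.2 &&& p.1) p.2 && (Nat.blt p.1 128 &&
    (Nat.beq (pc 7 p.1) (l + 1) && Nat.beq (pc 7 p.2) l))) &&
  (pwOk (lv N l) && (chOk (lv N l) &&
  (Nat.beq (bs Prod.fst (lv N l) &&& bs Prod.snd (lv N (l + 1))) 0 &&
  (((lv N l).head?.all fun p => Nat.beq p.1 (msk (base.take (l + 1)))) &&
  ((lv N l).getLast?.all fun p => Nat.beq p.2 (msk (a.take l)))))))

def chk (N : ℕ) (a : List ℕ) : Bool := (List.range 7).all fun l => lvOk N l a

theorem lv_nil (N l : ℕ) (h : 7 ≤ l) : lv N l = [] := by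
  rw [lv, Nat.choose_eq_zero_of_lt (by omega)]
  rfl

theorem card_toSet_of_lt {m : ℕ} (h : m < 128) : pc 7 m = (toSet m).card := pc_eq 7 m (by simpa using h)

theorem toSet_subset_base {m : ℕ} (h : m < 128) : toSet m ⊆ base.toFinset := by
  refine (toSet_subset_range (n := 7) (by simpa using h)).trans ?_
  intro i hi
  rw [mem_range] at hi
  simp only [base, List.mem_toFinset, List.mem_cons, List.not_mem_nil, or_false]
  omega

theorem pv_of_chk {N : ℕ} {a : List ℕ} (h : chk N a = true) (ha : a.Perm base) :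
    PV base a (fam N) := by
  have hl : ∀ l < 7, lvOk N l a = true := by
    intro l hl
    rw [chk, List.all_eq_true] at h
    exact h l (List.mem_range.2 hl)
  have hlv : ∀ l, (fam N l) = (lv N l).map toPair := fun l => rfl
  have hnil : ∀ l, 7 ≤ l → fam N l = [] := by
    intro l h7
    rw [hlv, lv_nil N l h7, List.map_nil]
  have hdec : ∀ l < 7, (∀ p ∈ lv N l, p.2 &&& p.1 = p.2 ∧ p.1 < 128 ∧ pc 7 p.1 = l + 1 ∧
      pc 7 p.2 = l) ∧ pwOk (lv N l) = true ∧ chOk (lv N l) = true ∧
      bs Prod.fst (lv N l) &&& bs Prod.snd (lv N (l + 1)) = 0 ∧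
      (∀ p ∈ (lv N l).head?, p.1 = msk (base.take (l + 1))) ∧
      (∀ p ∈ (lv N l).getLast?, p.2 = msk (a.take l)) := by
    intro l h7
    have h1 := hl l h7
    rw [lvOk] at h1
    simp only [Bool.and_eq_true, List.all_eq_true, Nat.beq_eq, Nat.blt_eq,
      Option.all_eq_true] at h1
    obtain ⟨h1, h2, h3, h4, h5, h6⟩ := h1
    exact ⟨h1, h2, h3, h4, h5, h6⟩
  refine ⟨⟨by decide, ?_, ?_, ?_, ?_, ?_, ?_, ?_⟩, ?_, ha⟩
  · intro l p hp
    rw [nil, List.nil_append] at hp
    rcases Nat.lt_or_ge l 7 with h7 | h7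
    · obtain ⟨q, hq, rfl⟩ := List.mem_map.1 hp
      obtain ⟨h1, h2, h3, h4⟩ := (hdec l h7).1 q hq
      have h5 : q.2 < 128 := by
        rw [← h1]
        exact lt_of_le_of_lt Nat.and_le_right h2
      refine ⟨toSet_subset_of_land h1, toSet_subset_base h2, ?_, ?_⟩
      · rw [← h3]; exact (card_toSet_of_lt h2).symm
      · conv_rhs => rw [← h4]
        exact (card_toSet_of_lt h5).symm
    · rw [hnil l h7] at hp
      simp at hp
  · intro l
    rw [nil, List.nil_append]
    rcases Nat.lt_or_ge l 7 with h7 | h7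
    · exact pw_of_pwOk _ (hdec l h7).2.1
    · rw [hnil l h7]; simp
  · intro l
    rcases Nat.lt_or_ge l 7 with h7 | h7
    · exact ch_of_chOk _ (hdec l h7).2.2.1
    · rw [hnil l h7]; simp
  · intro l p hp q hq hqp
    rw [nil, List.nil_append] at hp
    rw [nil, List.nil_append] at hq
    rcases Nat.lt_or_ge l 7 with h7 | h7
    · obtain ⟨p', hp', rfl⟩ := List.mem_map.1 hp
      obtain ⟨q', hq', rfl⟩ := List.mem_map.1 hq
      have h1 := (hdec l h7).2.2.2.1
      have h2 : q'.2 = p'.1 := toSet_injective hqp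
      have h3 := testBit_bs Prod.fst _ p' hp'
      have h4 := testBit_bs Prod.snd _ q' hq'
      rw [h2] at h4
      have h5 := congrArg (fun m => m.testBit p'.1) h1
      simp only [Nat.testBit_and, h3, h4, Nat.zero_testBit] at h5
      simp at h5
    · rw [hnil l h7] at hp
      simp at hp
  · intro l
    rw [nil, List.length_nil, Nat.zero_add, hlv, List.length_map, lv, length_dec]
    rfl
  · intro l
    rw [nil]; simp
  · intro l p hp
    rcases Nat.lt_or_ge l 7 with h7 | h7
    · rw [hlv, List.head?_map, Option.mem_def, Option.map_eq_some_iff] at hp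
      obtain ⟨q, hq, rfl⟩ := hp
      have := (hdec l h7).2.2.2.2.1 q hq
      change toSet q.1 = _
      rw [this, toSet_msk]
    · rw [hnil l h7] at hp
      simp at hp
  · intro l p hp
    rcases Nat.lt_or_ge l 7 with h7 | h7
    · rw [hlv, List.getLast?_map, Option.mem_def, Option.map_eq_some_iff] at hp
      obtain ⟨q, hq, rfl⟩ := hp
      have := (hdec l h7).2.2.2.2.2 q hq
      change toSet q.2 = _
      rw [this, toSet_msk]
    · rw [hnil l h7] at hp
      simp at hp

/-! ## The table -/

def dg : ℕ → ℕ → List ℕ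
  | 0, _ => []
  | k + 1, m => force (m % 16) fun d => force (m / 16) fun m' => d :: dg k m'

/-- the `i`-th of the 140 permutations -/
def unp (i : ℕ) : List ℕ := force (KP / 2 ^ (28 * i)) fun m => dg 7 m

def tabOk : ℕ → List ℕ → Bool
  | _, [] => true
  | i, N :: t => (List.isPerm (unp i) base && chk N (unp i)) && tabOk (i + 1) t

theorem of_tabOk : ∀ (l : List ℕ) (i : ℕ), tabOk i l = true → ∀ j < l.length,
    (unp (i + j)).Perm base ∧ ∃ N, PV base (unp (i + j)) (fam N) := by
  intro l
  induction l with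
  | nil => intro i _ j hj; simp at hj
  | cons N t ih =>
    intro i h j hj
    rw [tabOk, Bool.and_eq_true, Bool.and_eq_true] at h
    obtain ⟨⟨h1, h2⟩, h3⟩ := h
    have h1' := List.isPerm_iff.1 h1
    rcases j with _ | j
    · exact ⟨h1', N, pv_of_chk h2 h1'⟩
    · have := ih (i + 1) h3 j (by simpa using hj)
      rw [show i + (j + 1) = i + 1 + j by ring]
      exact this

/-- the check of the factorisations -/
def cov : List (List ℕ) → ℕ → Bool
  | [], _ => true
  | a :: t, w => match Nat.beq (a.headD 0) 6 with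
    | true => cov t w
    | false => (force (w % 256) fun i => force (w / 256 % 256) fun j =>
        Nat.blt i 140 && (Nat.blt j 140 &&
          ((unp j).map fun k => (unp i).getD k 0) == a)) && force (w / 65536) fun w' => cov t w'

theorem of_cov : ∀ (P : List (List ℕ)) (w : ℕ), cov P w = true → ∀ a ∈ P, a.headD 0 ≠ 6 →
    ∃ i j, i < 140 ∧ j < 140 ∧ (unp j).map (fun k => (unp i).getD k 0) = a := by
  intro P
  induction P with
  | nil => intro w _ a ha; simp at ha
  | cons b t ih =>
    intro w h a ha hne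
    rw [cov] at h
    rcases hb : Nat.beq (b.headD 0) 6 with _ | _
    · rw [hb] at h
      simp only [force_eq, Bool.and_eq_true, Nat.blt_eq, beq_iff_eq] at h
      obtain ⟨⟨h1, h2, h3⟩, h4⟩ := h
      rcases List.mem_cons.1 ha with rfl | ha
      · exact ⟨_, _, h1, h2, h3⟩
      · exact ih _ h4 a ha hne
    · rw [hb] at h
      simp only at h
      rcases List.mem_cons.1 ha with rfl | ha
      · exact absurd (Nat.eq_of_beq_eq_true hb) hne
      · exact ih _ h a ha hne

end Pool.Agent.Lib.MP_ad4d1c_co_h51.U
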