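import Mathlib
import Pool.Agent.Lib.MP_ad4d1c_co_h51.ExCheck

set_option autoImplicit false

/-! The kernel computations for the universality of plain families. -/

namespace Pool.Agent.Lib.MP_ad4d1c_co_h51.U

theorem tabOk_KN : tabOk 0 KN = true := by decide +kernel

theorem length_KN : KN.length = 140 := by decide +kernel

theorem cov_W : cov (List.permutations' base) W = true := by decide +kernel

end Pool.Agent.Lib.MP_ad4d1c_co_h51.U
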