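import Mathlib
import Pool.Agent.Lib.MP_ad4d1c_co_h51.ExKernel

set_option autoImplicit false

/-!
# Universality of plain families

`univ_of`: from relabelling and composition of plain families, every two orders `b`, `a` of a set
with at least eight elements such that `a` starts with the last element `y` of `b`, and the second
element of `a` is not the last but one element of `b`, are the start and end orders of a plain
family.
-/

namespace Pool.Agent.Lib.MP_ad4d1c_co_h51.U

open Finset Pool.Agent.Lib.MP_ad4d1c_co_h48.Ex

theorem tab (i : ℕ) (hi : i < 140) : (unp i).Perm base ∧ ∃ N, PV base (unp i) (fam N) := by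
  have := of_tabOk KN 0 tabOk_KN i (by rw [length_KN]; exact hi)
  rwa [Nat.zero_add] at this

theorem fact (s : List ℕ) (hs : s.Perm base) (h6 : s.headD 0 ≠ 6) :
    ∃ i j, i < 140 ∧ j < 140 ∧ (unp j).map (fun k => (unp i).getD k 0) = s :=
  of_cov _ W cov_W s (List.mem_permutations'.2 hs) h6

theorem base_eq : base = List.range 7 := by decide

theorem map_getD {c : List ℕ} (hc : c.length = 7) : base.map (fun k => c.getD k 0) = c := by
  apply List.ext_getElem
  · rw [List.length_map, base_eq, List.length_range, hc]
  · intro i h1 h2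
    rw [List.getElem_map]
    simp only [base_eq, List.getElem_range]
    exact List.getD_eq_getElem c 0 h2

theorem mem_base {k : ℕ} : k ∈ base ↔ k < 7 := by rw [base_eq, List.mem_range]

theorem injOn_getD {c : List ℕ} (hc : c.length = 7) (hnd : c.Nodup) :
    Set.InjOn (fun k => c.getD k 0) (base.toFinset : Set ℕ) := by
  intro i hi j hj hij
  rw [Finset.mem_coe, List.mem_toFinset, mem_base] at hi hj
  simp only [List.getD_eq_getElem c 0 (hc ▸ hi), List.getD_eq_getElem c 0 (hc ▸ hj)] at hij
  exact (hnd.getElem_inj_iff).1 hij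

theorem map_idxOf {b : List ℕ} (hb : b.Nodup) : b.map (fun x => b.idxOf x) = List.range b.length := by
  apply List.ext_getElem
  · rw [List.length_map, List.length_range]
  · intro i h1 h2
    rw [List.getElem_map, List.getElem_range]
    exact hb.idxOf_getElem i _

theorem seven
    (hrel : ∀ {b a : List ℕ} {L : Fam} {f : ℕ → ℕ}, PV b a L →
      Set.InjOn f (b.toFinset : Set ℕ) → PV (b.map f) (a.map f) (rel f L))
    {b a : List ℕ} (hlen : b.length = 7) (hnd : b.Nodup) (hp : a.Perm b)
    (hne : a.head? ≠ b.getLast?) : ∃ c N Y, PV b c N ∧ PV c a Y := by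
  set s := a.map (fun x => b.idxOf x) with hs
  have hsp : s.Perm base := by
    rw [hs, base_eq, ← hlen, ← map_idxOf hnd]
    exact hp.map _
  have hal : a.length = 7 := hp.length_eq.trans hlen
  have h6 : s.headD 0 ≠ 6 := by
    intro h
    rcases a with _ | ⟨x, a⟩
    · simp at hal
    · rw [hs, List.map_cons, List.headD_cons] at h
      apply hne
      have hx : x ∈ b := hp.subset (by simp)
      have h1 : b.idxOf x < b.length := List.idxOf_lt_length_iff.2 hx
      have h2 : b[b.idxOf x] = x := List.getElem_idxOf h1
      rw [List.head?_cons, List.getLast?_eq_getElem?, hlen, show 7 - 1 = b.idxOf x by omega,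
        List.getElem?_eq_getElem h1, h2]
  obtain ⟨i, j, hi, hj, hij⟩ := fact s hsp h6
  obtain ⟨hpi, Ni, hNi⟩ := tab i hi
  obtain ⟨hpj, Nj, hNj⟩ := tab j hj
  have hli : (unp i).length = 7 := hpi.length_eq.trans (by decide)
  have hndi : (unp i).Nodup := hpi.nodup_iff.2 (by decide)
  set f : ℕ → ℕ := fun k => b.getD k 0 with hf
  have hb : base.map f = b := map_getD hlen
  have hinj : Set.InjOn f (base.toFinset : Set ℕ) := injOn_getD hlen hnd
  have hN := hrel hNi hinj
  rw [hb] at hN
  have hcl : ((unp i).map f).length = 7 := by rw [List.length_map, hli]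
  have hcnd : ((unp i).map f).Nodup := by
    have : ((unp i).map f).Perm b := by
      rw [← hb]
      exact hpi.map f
    exact this.nodup_iff.2 hnd
  have hY := hrel hNj (injOn_getD hcl hcnd)
  rw [map_getD hcl] at hY
  have ha : (unp j).map (fun k => ((unp i).map f).getD k 0) = a := by
    have h1 : (unp j).map (fun k => ((unp i).map f).getD k 0) =
        ((unp j).map (fun k => (unp i).getD k 0)).map f := by
      rw [List.map_map]
      apply List.map_congr_left
      intro k hk
      have hk7 : k < 7 := mem_base.1 (hpj.subset hk)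
      rw [List.getD_eq_getElem _ 0 (hcl ▸ hk7), List.getElem_map, Function.comp_apply,
        List.getD_eq_getElem _ 0 (hli ▸ hk7)]
    rw [h1, hij, hs, List.map_map]
    conv_rhs => rw [← List.map_id a]
    apply List.map_congr_left
    intro x hx
    have hxb : x ∈ b := hp.subset hx
    have h2 : b.idxOf x < b.length := List.idxOf_lt_length_iff.2 hxb
    rw [Function.comp_apply, hf, id]
    simp only
    rw [List.getD_eq_getElem _ 0 h2, List.getElem_idxOf h2]
  rw [ha] at hY
  exact ⟨_, _, _, hN, hY⟩

theorem perm_cancel {b a : List ℕ} {y : ℕ} (h : (y :: a).Perm (b ++ [y])) : a.Perm b :=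
  (h.trans (List.perm_append_singleton y b)).cons_inv

theorem univ_of
    (hrel : ∀ {b a : List ℕ} {L : Fam} {f : ℕ → ℕ}, PV b a L →
      Set.InjOn f (b.toFinset : Set ℕ) → PV (b.map f) (a.map f) (rel f L))
    (hcomp : ∀ {b c a : List ℕ} {y : ℕ} {N Y : Fam}, PV b c N → PV c a Y → y ∉ b → b ≠ [] →
      PV (b ++ [y]) (y :: a) (comp y N Y)) (n : ℕ) :
    ∀ {b0 a0 : List ℕ} {u y v : ℕ}, b0.length = 6 + n → (b0 ++ [u, y]).Nodup →
    (y :: v :: a0).Perm (b0 ++ [u, y]) → u ≠ v → ∃ L, PV (b0 ++ [u, y]) (y :: v :: a0) L := by
  induction n with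
  | zero =>
    intro b0 a0 u y v hlen hnd hp huv
    have hbe : b0 ++ [u, y] = (b0 ++ [u]) ++ [y] := by simp
    rw [hbe] at hnd hp ⊢
    have hnd' := List.nodup_append.1 hnd
    have hp' := perm_cancel hp
    obtain ⟨c, N, Y, hN, hY⟩ := seven hrel (b := b0 ++ [u]) (a := v :: a0)
      (by rw [List.length_append, hlen]; rfl) hnd'.1 hp' (by
        rw [List.head?_cons, List.getLast?_concat]
        intro h
        exact huv (Option.some.inj h).symm)
    exact ⟨_, hcomp hN hY (fun h => hnd'.2.2 y h y (by simp) rfl) (by simp)⟩
  | succ n ih =>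
    intro b0 a0 u y v hlen hnd hp huv
    have hbe : b0 ++ [u, y] = (b0 ++ [u]) ++ [y] := by simp
    rw [hbe] at hnd hp ⊢
    have hnd' := List.nodup_append.1 hnd
    have hp' := perm_cancel hp
    have hndb := List.nodup_append.1 hnd'.1
    have hvb : v ∈ b0 := by
      have := hp'.subset (List.mem_cons_self (a := v) (l := a0))
      rcases List.mem_append.1 this with h | h
      · exact h
      · exact absurd (List.mem_singleton.1 h).symm huv
    have hub : u ∉ b0 := fun h => hndb.2.2 u h u (by simp) rfl
    -- last element of `b0`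
    obtain ⟨b00, u', hb00⟩ : ∃ b00 u', b0 = b00 ++ [u'] := by
      refine ⟨b0.dropLast, b0.getLast (by intro h; rw [h] at hvb; simp at hvb), ?_⟩
      rw [List.dropLast_append_getLast]
    -- head of `a0`
    have hal : a0.length = 7 + n := by
      have := hp'.length_eq
      rw [List.length_cons, List.length_append, hlen, List.length_singleton] at this
      omega
    obtain ⟨w, a00, ha00⟩ : ∃ w a00, a0 = w :: a00 := by
      rcases a0 with _ | ⟨w, a00⟩
      · rw [List.length_nil] at hal
        omega
      · exact ⟨w, a00, rfl⟩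
    -- the rest
    set R := b0.erase v with hR
    have hRp : b0.Perm (v :: R) := List.perm_cons_erase hvb
    have hRnd : R.Nodup := hndb.1.erase v
    have hRl : R.length = 6 + n := by
      rw [hR, List.length_erase_of_mem hvb, hlen]
      omega
    have hvR : v ∉ R := (List.nodup_cons.1 (hRp.nodup_iff.1 hndb.1)).1
    have huR : u ∉ R := fun h => hub (hRp.symm.subset (List.mem_cons_of_mem _ h))
    obtain ⟨p, hpR, hpu⟩ : ∃ p ∈ R, p ≠ u' := by
      by_contra hcon
      push Not at hcon
      have h1 : R.toFinset ⊆ {u'} := by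
        intro x hx
        rw [Finset.mem_singleton]
        exact hcon x (List.mem_toFinset.1 hx)
      have h2 := card_le_card h1
      rw [List.toFinset_card_of_nodup hRnd, hRl, card_singleton] at h2
      omega
    obtain ⟨t, htR, htp, htw⟩ : ∃ t ∈ R, t ≠ p ∧ t ≠ w := by
      by_contra hcon
      push Not at hcon
      have h1 : R.toFinset ⊆ {p, w} := by
        intro x hx
        rw [Finset.mem_insert, Finset.mem_singleton]
        by_cases hxp : x = p
        · exact Or.inl hxp
        · exact Or.inr (hcon x (List.mem_toFinset.1 hx) hxp)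
      have h2 := (card_le_card h1).trans card_le_two
      rw [List.toFinset_card_of_nodup hRnd, hRl] at h2
      omega
    set R' := (R.erase p).erase t with hR'
    have htR' : t ∈ R.erase p := (List.mem_erase_of_ne htp).2 htR
    have hRp2 : R.Perm (p :: t :: R') :=
      (List.perm_cons_erase hpR).trans ((List.perm_cons_erase htR').cons p)
    have hR'l : R'.length = 4 + n := by
      have := hRp2.length_eq
      rw [List.length_cons, List.length_cons, hRl] at this
      omega
    -- the middle order
    have hc1 : (u :: p :: (R' ++ [t, v])).Perm (b0 ++ [u]) := by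
      have h1 : (R' ++ [t, v]).Perm (t :: v :: R') := by
        refine (List.perm_append_comm (l₁ := R') (l₂ := [t, v])).trans ?_
        simp
      have h2 : (u :: p :: (R' ++ [t, v])).Perm (u :: p :: t :: v :: R') := (h1.cons p).cons u
      have h3 : (p :: t :: v :: R').Perm (v :: p :: t :: R') := by
        refine ((List.Perm.swap v t R').cons p).trans ?_
        exact List.Perm.swap v p (t :: R')
      have h4 : (v :: p :: t :: R').Perm b0 := ((hRp2.symm.cons v).trans hRp.symm)
      refine h2.trans ((h3.trans h4).cons u |>.trans ?_)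
      exact (List.perm_append_singleton u b0).symm
    have hb0u : b0 ++ [u] = b00 ++ [u', u] := by rw [hb00]; simp
    have hce : (u :: p :: R') ++ [t, v] = u :: p :: (R' ++ [t, v]) := by simp
    obtain ⟨N, hN⟩ := ih (b0 := b00) (a0 := R' ++ [t, v]) (u := u') (y := u) (v := p)
      (by
        have h1 := hlen
        rw [hb00, List.length_append, List.length_singleton] at h1
        omega)
      (by rw [← hb0u]; exact hnd'.1) (by rw [← hb0u]; exact hc1) (Ne.symm hpu)
    obtain ⟨Y, hY⟩ := ih (b0 := u :: p :: R') (a0 := a00) (u := t) (y := v) (v := w)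
      (by rw [List.length_cons, List.length_cons, hR'l]; omega)
      (by rw [hce]; exact hc1.nodup_iff.2 hnd'.1)
      (by rw [hce, ← ha00]; exact hp'.trans hc1.symm) htw
    rw [← hb0u] at hN
    rw [hce, ← ha00] at hY
    exact ⟨_, hcomp hN hY (fun h => hnd'.2.2 y h y (by simp) rfl) (by simp)⟩

end Pool.Agent.Lib.MP_ad4d1c_co_h51.U
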