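import Mathlib
import Pool.Agent.Lib.MP_ad4d1c_co_h51.ExUnivOf
import Pool.Agent.Lib.MP_ad4d1c_co_h52.ExR
import Pool.Agent.Lib.MP_ad4d1c_co_h87.ExC1

set_option autoImplicit false

namespace Pool.Agent.Lib.MP_ad4d1c_co_h48.Ex

/-- universality of plain families on at least eight elements -/
theorem univ {b0 a0 : List ℕ} {u y v : ℕ} (hlen : 6 ≤ b0.length) (hnd : (b0 ++ [u, y]).Nodup)
    (hp : (y :: v :: a0).Perm (b0 ++ [u, y])) (huv : u ≠ v) :
    ∃ L, PV (b0 ++ [u, y]) (y :: v :: a0) L := by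
  obtain ⟨n, hn⟩ := Nat.exists_eq_add_of_le hlen
  exact Pool.Agent.Lib.MP_ad4d1c_co_h51.U.univ_of (fun h hf => PV.rel h hf)
    (fun hN hY hy hb => PV.comp hN hY hy hb) n hn hnd hp huv

end Pool.Agent.Lib.MP_ad4d1c_co_h48.Ex
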