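import Mathlib
import Pool.Agent.Lib.MP_ad4d1c_co_h87.ExWTfin

set_option autoImplicit false

/-!
# Module WF of the exact Felsner–Trotter theorem: the final W-family
-/

namespace Pool.Agent.Lib.MP_ad4d1c_co_h48.Ex

open Finset

namespace WFm

/-- the element `x` -/
def wx (m : ℕ) : ℕ := if m % 2 = 0 then m - 2 else m - 3

/-- the element `w` -/
def ww (m : ℕ) : ℕ := if m % 2 = 0 then m else m - 1

theorem dls_two {m : ℕ} (hm : 12 ≤ m) : dls 2 (m - 7) = 4 :: 9 :: dls 4 (m - 9) := by
  obtain ⟨k, rfl⟩ : ∃ k, m = k + 12 := ⟨m - 12, by omega⟩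
  rw [show k + 12 - 7 = (k + 3) + 1 + 1 by omega, show k + 12 - 9 = k + 3 by omega]
  simp only [dls, List.range'_succ, List.map_cons]
  rfl

theorem mem_dls' {a n z : ℕ} : z ∈ dls a n ↔ ∃ j, a ≤ j ∧ j < a + n ∧ dl j = z := by
  simp only [dls, List.mem_map, List.mem_range'_1]
  constructor
  · rintro ⟨j, h1, h2⟩
    exact ⟨j, h1.1, h1.2, h2⟩
  · rintro ⟨j, h1, h2, h3⟩
    exact ⟨j, ⟨h1, h2⟩, h3⟩

/-- permutations of `range'` by counting -/
theorem perm_range_of {l : List ℕ} {n : ℕ} (hlen : l.length = n)
    (hmem : ∀ x, 1 ≤ x → x ≤ n → x ∈ l) : l.Perm (List.range' 1 n) := by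
  have hsub : List.range' 1 n ⊆ l := by
    intro x hx
    rw [List.mem_range'_1] at hx
    exact hmem x hx.1 (by omega)
  have h1 : (List.range' 1 n).Subperm l := List.subperm_of_subset List.nodup_range' hsub
  exact (h1.perm_of_length_le (by rw [hlen, List.length_range'])).symm

theorem wf_base {m : ℕ} (hm : 12 ≤ m) :
    (7 :: 2 :: 5 :: 3 :: 1 :: wx m :: ww m :: dls 2 (m - 7)).Perm (List.range' 1 m) := by
  apply perm_range_of
  · simp only [List.length_cons, dls, List.length_map, List.length_range']
    omega
  · intro z h1 h2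
    simp only [List.mem_cons]
    rcases Nat.mod_two_eq_zero_or_one m with hmm | hmm
    · have hx : wx m = m - 2 := by rw [wx, if_pos hmm]
      have hw : ww m = m := by rw [ww, if_pos hmm]
      rw [hx, hw]
      by_cases hz : z % 2 = 1
      · by_cases h9 : 9 ≤ z
        · iterate 7 right
          rw [mem_dls']
          refine ⟨z - 6, by omega, by omega, ?_⟩
          unfold dl
          rw [if_pos (by omega)]
          omega
        · omega
      · by_cases h4 : 4 ≤ z ∧ z ≤ m - 4
        · iterate 7 right
          rw [mem_dls']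
          refine ⟨z - 2, by omega, by omega, ?_⟩
          unfold dl
          rw [if_neg (by omega)]
          omega
        · omega
    · have hx : wx m = m - 3 := by rw [wx, if_neg (by omega)]
      have hw : ww m = m - 1 := by rw [ww, if_neg (by omega)]
      rw [hx, hw]
      by_cases hz : z % 2 = 1
      · by_cases h9 : 9 ≤ z
        · iterate 7 right
          rw [mem_dls']
          refine ⟨z - 6, by omega, by omega, ?_⟩
          unfold dl
          rw [if_pos (by omega)]
          omega
        · omega
      · by_cases h4 : 4 ≤ z ∧ z ≤ m - 5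
        · iterate 7 right
          rw [mem_dls']
          refine ⟨z - 2, by omega, by omega, ?_⟩
          unfold dl
          rw [if_neg (by omega)]
          omega
        · omega

theorem ground {m : ℕ} (hm : 12 ≤ m) :
    (2 :: 5 :: 3 :: 1 :: wx m :: ww m :: dls 2 (m - 7)).toFinset = Icc 1 m \ {7} := by
  have h := wf_base hm
  have hnd := h.nodup_iff.2 List.nodup_range'
  have h7 := (List.nodup_cons.1 hnd).1
  ext z
  rw [mem_sdiff, mem_singleton, mem_Icc, List.mem_toFinset]
  constructor
  · intro hz
    have h1 := h.subset (List.mem_cons_of_mem 7 hz)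
    rw [List.mem_range'_1] at h1
    refine ⟨by omega, ?_⟩
    rintro rfl
    exact h7 hz
  · rintro ⟨h1, h2⟩
    have h3 := h.symm.subset (List.mem_range'_1.2 ⟨h1.1, by omega⟩)
    rcases List.mem_cons.1 h3 with h3 | h3
    · exact absurd h3 h2
    · exact h3

/-- the marks of the final family -/
theorem mark_eq {m l : ℕ} (hm : 12 ≤ m) (hl : 1 ≤ l) (hl2 : l + 1 ≤ topK m) :
    insert 7 (Pk (decide (m % 2 = 0)) 2 5 3 1 (wx m) (ww m) 1 (dls 2 (m - 7)) l) =
      sTop m (l + 2) := by
  have hlen : (dls 2 (m - 7)).length = m - 7 := by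
    simp only [dls, List.length_map, List.length_range']
  have hg := ground hm
  have hins : ∀ C : Finset ℕ, 7 ∉ C → insert 7 ((Icc 1 m \ {7}) \ C) = Icc 1 m \ C := by
    intro C hC
    ext z
    simp only [mem_insert, mem_sdiff, mem_Icc, mem_singleton]
    constructor
    · rintro (rfl | h)
      · exact ⟨by omega, hC⟩
      · exact ⟨h.1.1, h.2⟩
    · rintro ⟨h1, h2⟩
      by_cases h7 : z = 7
      · exact Or.inl h7
      · exact Or.inr ⟨⟨h1, h7⟩, h2⟩
  unfold Pk
  simp only [hg, hlen]
  unfold topK at hl2
  by_cases h1 : l ≤ m - 7 + 1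
  · rw [if_pos h1]
    have htau : sTop m (l + 2) = tau (l + 2) := by
      unfold sTop sV sO
      split_ifs at hl2 ⊢ <;> first | omega | contradiction | rfl
    rw [htau]
    unfold tau
    rw [show l + 2 - 2 = l by omega]
    have hd : dls 1 l = 7 :: dls 2 (l - 1) := by
      obtain ⟨k, rfl⟩ : ∃ k, l = k + 1 := ⟨l - 1, by omega⟩
      simp only [dls, List.range'_succ, List.map_cons, Nat.add_sub_cancel]
      rfl
    have htk : (dls 2 (m - 7)).take (l - 1) = dls 2 (l - 1) := by
      unfold dls
      rw [← List.map_take, List.take_range'_of_length_ge (by omega)]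
    rw [hd, htk, List.toFinset_cons, insert_union]
    congr 2
    rcases Nat.mod_two_eq_zero_or_one l with hp | hp
    · rw [if_neg (by omega), if_pos (by omega)]
      ext z
      simp only [mem_insert, mem_singleton]
      tauto
    · rw [if_pos (by omega), if_neg (by omega)]
  · rw [if_neg h1]
    rcases Nat.mod_two_eq_zero_or_one m with hmm | hmm
    · have hx : wx m = m - 2 := by rw [wx, if_pos hmm]
      have hw : ww m = m := by rw [ww, if_pos hmm]
      rw [if_pos hmm] at hl2
      rw [if_pos (show decide (m % 2 = 0) = true by simpa using hmm), hx, hw]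
      have hs : sTop m (l + 2) = sV m 1 (l + 2) := by unfold sTop; rw [if_pos hmm]
      rw [hs]
      by_cases h2 : l = m - 7 + 2
      · have hv : sV m 1 (l + 2) = Icc 1 (m - 1) \ {1, m - 2} := by
          unfold sV
          split_ifs <;> first | omega | contradiction | rfl
        rw [if_pos h2, hins _ (by simp; omega), hv]
        ext z
        simp only [mem_sdiff, mem_Icc, mem_insert, mem_singleton]
        omega
      · rw [if_neg h2]
        by_cases h3 : l = m - 7 + 3
        · have hv : sV m 1 (l + 2) = Icc 1 (m - 1) \ {1} := by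
            unfold sV
            split_ifs <;> first | omega | contradiction | rfl
          rw [if_pos h3, hins _ (by simp; omega), hv]
          ext z
          simp only [mem_sdiff, mem_Icc, mem_insert, mem_singleton]
          omega
        · have hv : sV m 1 (l + 2) = Icc 1 (m - 1) := by
            unfold sV
            split_ifs <;> first | omega | contradiction | rfl
          rw [if_neg h3, hins _ (by simp; omega), hv]
          ext z
          simp only [mem_sdiff, mem_Icc, mem_singleton]
          omega
    · have hw : ww m = m - 1 := by rw [ww, if_neg (by omega)]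
      have hm0 : ¬ m % 2 = 0 := by omega
      rw [if_neg hm0] at hl2
      rw [if_neg (show ¬ decide (m % 2 = 0) = true by simpa using hmm), hw]
      have hs : sTop m (l + 2) = sO m 7 (l + 2) := by unfold sTop; rw [if_neg hm0]
      rw [hs]
      by_cases h2 : l = m - 7 + 2
      · have hv : sO m 7 (l + 2) = Icc 1 m \ {m - 1, 2, 5} := by
          unfold sO
          split_ifs <;> first | omega | contradiction | rfl
        have hz : insert (m - 1) (zz 1 2 5 3 1) = ({m - 1, 2, 5} : Finset ℕ) := by
          unfold zz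
          rw [if_pos (Or.inl rfl)]
        rw [if_pos h2, hz, hins _ (by simp; omega), hv]
      · have hv : sO m 7 (l + 2) = Icc 1 m \ {1, m - 1} := by
          unfold sO
          split_ifs <;> first | omega | contradiction | rfl
        rw [if_neg h2, hins _ (by simp; omega), hv]

theorem choose_ge_two {n k : ℕ} (h1 : 1 ≤ k) (h2 : k + 1 ≤ n) : 2 ≤ n.choose k := by
  have := Nat.choose_le_choose (c := k) h2
  have h3 : (k + 1).choose k = k + 1 := by
    rw [Nat.choose_symm_of_eq_add (show k + 1 = k + 1 from rfl), Nat.choose_one_right]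
  omega

end WFm

open WFm

theorem wf_exists (m : ℕ) (hm : 12 ≤ m) {α α0 : List ℕ} {t : ℕ} (hα : α = α0 ++ [t, 4, 3, 2, 5, 7])
    (hp : α.Perm (List.range' 1 (m - 1))) (ht : t ≠ 1) :
    ∃ T L, WF m (m :: α) T L := by
  set nodd : Bool := decide (m % 2 = 0) with hnodd
  set D : List ℕ := dls 2 (m - 7) with hD
  have hDlen : D.length = m - 7 := by
    simp only [hD, dls, List.length_map, List.length_range']
  have hDe : D = 4 :: 9 :: dls 4 (m - 9) := dls_two hm
  have hbase := wf_base hm
  have hbnd := hbase.nodup_iff.2 List.nodup_range'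
  have hnd : (2 :: 5 :: 3 :: 1 :: wx m :: ww m :: D).Nodup := (List.nodup_cons.1 hbnd).2
  -- the W-structure
  obtain ⟨b, T, L, hW⟩ := wt_exists nodd (q1 := 2) (r1 := 5) (q2 := 3) (r2 := 1) (x := wx m)
    (w := ww m) (Ap := 1) (D := D) (by omega) hnd (by
      rw [hDlen, hnodd]
      rcases Nat.mod_two_eq_zero_or_one m with h | h
      · rw [if_pos]
        have h1 : (m - 7) % 2 = 1 := by omega
        simp [h, h1]
      · rw [if_pos]
        have h1 : (m - 7) % 2 = 0 := by omega
        simp [h, h1])
  obtain ⟨d1, D1, a', hDe', ha', hb⟩ := hW.form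
  rw [hDe] at hDe'
  obtain ⟨rfl, rfl⟩ : 4 = d1 ∧ 9 :: dls 4 (m - 9) = D1 := by
    simpa using hDe'
  -- the V-family
  have hmα : (m :: α).Perm (List.range' 1 m) := by
    have h1 : (List.range' 1 m).Perm (m :: List.range' 1 (m - 1)) := by
      obtain ⟨k, rfl⟩ : ∃ k, m = k + 1 := ⟨m - 1, by omega⟩
      rw [Nat.add_sub_cancel, List.range'_1_concat, Nat.add_comm 1 k]
      exact List.perm_append_singleton _ _
    exact (hp.cons m).trans h1.symm
  set b3 : List ℕ := m :: α0 ++ [t] with hb3
  have hb3e : m :: α = (b3 ++ [4, 3, 2, 5]) ++ [7] := by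
    rw [hb3, hα]; simp
  have hb3p : b3.Perm (1 :: wx m :: ww m :: 9 :: dls 4 (m - 9)) := by
    rw [List.perm_iff_count]
    intro a
    have h1 := List.perm_iff_count.1 (hmα.trans hbase.symm) a
    rw [hb3e, dls_two hm] at h1
    simp only [List.count_cons, List.count_append, List.count_nil] at h1 ⊢
    omega
  obtain ⟨LV, hPV, hav⟩ := vfirst nodd (q := 3) (r := 1) (q' := 2) (r' := 5) (x := wx m)
    (w := ww m) (d1 := 4) (d2 := 9) (D' := dls 4 (m - 9)) (a' := a') (b3 := b3)
    (by rw [← hDe]; exact hnd)
    (by simp only [dls, List.length_map, List.length_range']; omega) ha' hb3p (by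
      rw [hb3, List.getLast?_concat]
      intro h
      exact ht (Option.some.inj h))
  rw [← hb] at hPV
  rw [← hDe] at hav
  have hmnd : (m :: α).Nodup := hmα.nodup_iff.2 List.nodup_range'
  have h7 : 7 ∉ b3 ++ [4, 3, 2, 5] := by
    rw [hb3e] at hmnd
    exact fun h => (List.nodup_append.1 hmnd).2.2 7 h 7 (by simp) rfl
  have hVlen : (b3 ++ [4, 3, 2, 5]).length = m - 1 := by
    have h1 := hmα.length_eq
    rw [hb3e, List.length_append, List.length_range', List.length_singleton] at h1
    omega
  have hbl : b.length = m - 1 := by rw [hPV.perm.length_eq, hVlen]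
  have htop : topT nodd D + 1 = topK m := by
    unfold topT topK
    rw [hDlen, hnodd]
    rcases Nat.mod_two_eq_zero_or_one m with h | h
    · simp only [h, decide_true, if_true]
      omega
    · simp only [h]
      norm_num
      omega
  have htopK : topK m ≤ m - 2 := by
    unfold topK; split_ifs <;> omega
  have htopK3 : m - 3 ≤ topK m := by
    unfold topK; split_ifs <;> omega
  have hLne : ∀ l, l ≤ m - 2 → L l ≠ [] := by
    intro l hl he
    have h1 := hW.tpv.len l
    rw [hbl, he, List.length_nil, Nat.add_zero] at h1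
    rcases Nat.eq_zero_or_pos l with rfl | hl0
    · rw [hW.tnone 0 (Or.inl rfl)] at h1
      simp at h1
    · rcases Nat.lt_or_ge (topT nodd D) l with h2 | h2
      · rw [hW.tnone l (Or.inr h2)] at h1
        have h3 := Nat.choose_pos (n := m - 1 - 1) (k := l) (by omega)
        rw [← h1] at h3
        simp at h3
      · have h3 := hW.tpv.tlen l
        have h4 := choose_ge_two (n := m - 1 - 1) (k := l) hl0 (by omega)
        omega
  have hcomp := hPV.tpv.comp (y := 7) hPV.ends hW.tpv hPV.perm h7 (by simp)
    (fun l hl => hPV.ne_nil hl) (fun l => Or.inl rfl) (by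
      intro l p hp' q hq
      have hl1 : 1 ≤ l := by
        by_contra hcon
        rw [hW.tnone l (Or.inl (by omega))] at hp'
        simp at hp'
      have hl2 : l ≤ topT nodd D := by
        by_contra hcon
        rw [hW.tnone l (Or.inr (by omega))] at hp'
        simp at hp'
      obtain ⟨c, hc⟩ := hW.tsome l hl1 hl2
      rw [hc, List.mem_singleton] at hp'
      subst hp'
      exact hav l hl1 hl2 (l + 1) q hq)
  rw [← hb3e] at hcomp
  have hTs : ∀ l, comp 7 nil T (l + 1) = (T l).map (ins 7) := by
    intro l
    show nil (l + 1) ++ (T l).map (ins 7) = _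
    simp [nil]
  have hT0 : comp 7 nil T 0 = [] := rfl
  have hLlast : ∀ l, l ≤ m - 2 → ∀ p ∈ (comp 7 LV L (l + 1)).getLast?,
      ∃ p' ∈ (L l).getLast?, ins 7 p' = p := by
    intro l hl p hp'
    have hne := hLne l hl
    have : comp 7 LV L (l + 1) = LV (l + 1) ++ (L l).map (ins 7) := rfl
    rw [this, List.getLast?_append_of_ne_nil _ (by simpa using hne), List.getLast?_map] at hp'
    rw [Option.mem_def, Option.map_eq_some_iff] at hp'
    obtain ⟨p', h1, h2⟩ := hp'
    exact ⟨p', h1, h2⟩
  refine ⟨_, _, hcomp, ?_, ?_, ?_, ?_, ?_⟩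
  · ext z
    rw [List.mem_toFinset, hmα.mem_iff, List.mem_range'_1, mem_Icc]
    omega
  · intro k hk1 hk2
    obtain ⟨l, rfl⟩ : ∃ l, k = l + 1 := ⟨k - 1, by omega⟩
    obtain ⟨c, hc⟩ := hW.tsome l (by omega) (by omega)
    refine ⟨insert 7 c, ?_⟩
    rw [hTs, hc, ← mark_eq hm (by omega) hk2]
    rfl
  · intro k hk
    rcases k with _ | k
    · rfl
    · rw [hTs]
      have : T k = [] := by
        rcases hk with hk | hk
        · exact hW.tnone k (Or.inl (by omega))
        · exact hW.tnone k (Or.inr (by omega))
      rw [this]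
      rfl
  · intro k hk p hp' q hq
    obtain ⟨l, rfl⟩ : ∃ l, k = l + 1 := ⟨k - 1, by omega⟩
    rw [hTs] at hq
    obtain ⟨q', hq', rfl⟩ := List.mem_map.1 hq
    have hl : l + 1 ≤ topT nodd D := by
      by_contra hcon
      rw [hW.tnone (l + 1) (Or.inr (by omega))] at hq'
      simp at hq'
    obtain ⟨p', hp'', rfl⟩ := hLlast l (by omega) p hp'
    cases l with
    | zero =>
      have : p' ∈ L 0 := List.mem_of_getLast? hp''
      have hc := (hW.tpv.mem 0 p' (List.mem_append.2 (Or.inr this))).2.2.2
      rw [card_eq_zero] at hc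
      simp only [ins, hc]
      exact insert_subset_insert 7 (empty_subset _)
    | succ l =>
      exact insert_subset_insert 7 (hW.link (l + 1) (by omega) p' hp'' q' hq')
  · intro k hk p hp' q hq
    obtain ⟨l, rfl⟩ : ∃ l, k = l + 1 := ⟨k - 1, by omega⟩
    obtain ⟨p', hp'', rfl⟩ := hLlast l (by omega) p hp'
    obtain ⟨q', hq', rfl⟩ := hLlast (l + 1) (by omega) q hq
    exact insert_subset_insert 7 (hW.toplink l (by omega) p' hp'' q' hq')

end Pool.Agent.Lib.MP_ad4d1c_co_h48.Ex
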